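import Pool.Agent.W208.SR.Build
import Pool.Agent.Helper850.RC.P_ramsey

set_option autoImplicit false

open Finset Filter

namespace Pool.Agent.Results.MP_654b32_co.Superpolynomial

open Pool.Agent.W208.SR

/-- Value `f (x, y, z)` of a real polynomial in six variables at three points of the plane. -/
noncomputable def polyVal (f : MvPolynomial (Fin 6) ℝ) (x y z : ℝ × ℝ) : ℝ :=
  MvPolynomial.eval ![x.1, x.2, y.1, y.2, z.1, z.2] f

/-- `t` is a clique of the 3-uniform hypergraph of `f` and the points `v 0, v 1, ...`, in which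
the triple `i < j < k` is an edge iff `f (v i, v j, v k) ≥ 0`. -/
def IsClique (f : MvPolynomial (Fin 6) ℝ) {N : ℕ} (v : Fin N → ℝ × ℝ) (t : Finset (Fin N)) :
    Prop :=
  ∀ i ∈ t, ∀ j ∈ t, ∀ k ∈ t, i < j → j < k → 0 ≤ polyVal f (v i) (v j) (v k)

/-- `t` contains no edge of this hypergraph. -/
def IsIndep (f : MvPolynomial (Fin 6) ℝ) {N : ℕ} (v : Fin N → ℝ × ℝ) (t : Finset (Fin N)) :
    Prop :=
  ∀ i ∈ t, ∀ j ∈ t, ∀ k ∈ t, i < j → j < k → ¬ 0 ≤ polyVal f (v i) (v j) (v k)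

/-- For any `N` distinct points of the plane, in any order, there is a clique on `s` vertices or
an independent set on `n` vertices. -/
def Forces (f : MvPolynomial (Fin 6) ℝ) (s n N : ℕ) : Prop :=
  ∀ v : Fin N → ℝ × ℝ, Function.Injective v →
    (∃ t : Finset (Fin N), t.card = s ∧ IsClique f v t) ∨
    (∃ t : Finset (Fin N), t.card = n ∧ IsIndep f v t)

/-- The Ramsey number `R_f(s, n)`: the least `N` with `Forces f s n N`. -/
noncomputable def semiRamsey (f : MvPolynomial (Fin 6) ℝ) (s n : ℕ) : ℕ :=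
  sInf {N : ℕ | Forces f s n N}

/-! ### The Ramsey numbers are finite -/

theorem forces_exists (f : MvPolynomial (Fin 6) ℝ) (s n : ℕ) : ∃ N, Forces f s n N := by
  classical
  obtain ⟨C, hC⟩ := RC.ramsey 3
  obtain ⟨a, ha⟩ := hC 2
  set N := RC.tow C (a * (max s n + 1)) with hN
  refine ⟨N, fun v _ => ?_⟩
  set v' : ℕ → ℝ × ℝ := fun i => if h : i < N then v ⟨i, h⟩ else 0 with hv'
  obtain ⟨T, hT, hTc, hh⟩ := ha (max s n) (range N) (by rw [card_range])
    (fun x => if 0 ≤ polyVal f (v' (x 0)) (v' (x 1)) (v' (x 2)) then (1 : Fin 2) else 0)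
  have hlt : ∀ m ∈ T, m < N := fun m hm => mem_range.1 (hT hm)
  have hval : ∀ (i : Fin N), v' i = v i := fun i => by
    simp only [hv', i.2, dite_true]
  have tri : ∀ i j k : ℕ, i < j → j < k → StrictMono ![i, j, k] := by
    intro i j k hij hjk
    rw [Fin.strictMono_iff_lt_succ]
    intro x
    fin_cases x
    · exact hij
    · exact hjk
  have tmem : ∀ i ∈ T, ∀ j ∈ T, ∀ k ∈ T, ∀ l : Fin 3, (![i, j, k] : Fin 3 → ℕ) l ∈ T := by
    intro i hi j hj k hk l
    fin_cases l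
    · exact hi
    · exact hj
    · exact hk
  by_cases hex : ∃ x : Fin 3 → ℕ, StrictMono x ∧ (∀ l, x l ∈ T) ∧
      ¬ 0 ≤ polyVal f (v' (x 0)) (v' (x 1)) (v' (x 2))
  · right
    obtain ⟨x, hx, hxT, hx0⟩ := hex
    obtain ⟨T1, hT1, hT1c⟩ := exists_subset_card_eq (s := T) (n := n) (by
      rw [hTc]; exact le_max_right _ _)
    refine ⟨T1.attachFin (fun m hm => hlt m (hT1 hm)), by rw [card_attachFin, hT1c], ?_⟩
    intro i hi j hj k hk hij hjk
    rw [mem_attachFin] at hi hj hk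
    have h1 := hh x ![i, j, k] hx (tri _ _ _ hij hjk) hxT
      (tmem _ (hT1 hi) _ (hT1 hj) _ (hT1 hk))
    rw [if_neg hx0] at h1
    have h2 : ¬ 0 ≤ polyVal f (v' i) (v' j) (v' k) := by
      intro h3
      have h4 : 0 ≤ polyVal f (v' (![(i:ℕ), (j:ℕ), (k:ℕ)] 0)) (v' (![(i:ℕ), (j:ℕ), (k:ℕ)] 1))
        (v' (![(i:ℕ), (j:ℕ), (k:ℕ)] 2)) := h3
      rw [if_pos h4] at h1
      exact absurd h1 (by decide)
    rwa [hval, hval, hval] at h2
  · left
    push Not at hex
    obtain ⟨T1, hT1, hT1c⟩ := exists_subset_card_eq (s := T) (n := s) (by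
      rw [hTc]; exact le_max_left _ _)
    refine ⟨T1.attachFin (fun m hm => hlt m (hT1 hm)), by rw [card_attachFin, hT1c], ?_⟩
    intro i hi j hj k hk hij hjk
    rw [mem_attachFin] at hi hj hk
    have h1 : 0 ≤ polyVal f (v' i) (v' j) (v' k) :=
      hex ![i, j, k] (tri _ _ _ hij hjk) (tmem _ (hT1 hi) _ (hT1 hj) _ (hT1 hk))
    rwa [hval, hval, hval] at h1

/-! ### The polynomial -/

/-- The polynomial `a³b²cd - a⁴b²d - a⁶c²d - b⁴c²` in the differences `(a, b)` of the first two and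
`(c, d)` of the last two points. -/
noncomputable def pol : MvPolynomial (Fin 6) ℝ :=
  (MvPolynomial.X 2 - MvPolynomial.X 0) ^ 3 * (MvPolynomial.X 3 - MvPolynomial.X 1) ^ 2 *
      (MvPolynomial.X 4 - MvPolynomial.X 2) * (MvPolynomial.X 5 - MvPolynomial.X 3) -
    (MvPolynomial.X 2 - MvPolynomial.X 0) ^ 4 * (MvPolynomial.X 3 - MvPolynomial.X 1) ^ 2 *
      (MvPolynomial.X 5 - MvPolynomial.X 3) -
    (MvPolynomial.X 2 - MvPolynomial.X 0) ^ 6 * (MvPolynomial.X 4 - MvPolynomial.X 2) ^ 2 *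
      (MvPolynomial.X 5 - MvPolynomial.X 3) -
    (MvPolynomial.X 3 - MvPolynomial.X 1) ^ 4 * (MvPolynomial.X 4 - MvPolynomial.X 2) ^ 2

theorem polyVal_pol (x y z : ℝ × ℝ) : polyVal pol x y z = fval (y - x) (z - y) := by
  unfold polyVal pol fval
  simp [Prod.fst_sub, Prod.snd_sub]

/-! ### The configurations -/

/-- Enumerate a point set by increasing first coordinate. -/
theorem exists_config {V P : Type} [Fintype V] [Fintype P] {S : Sys V P} {w : V → ℕ}
    (hTF : TF S) (hWT : WT S w) {B : ℕ} (hB : 1 ≤ B) {n : ℕ}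
    (hn : 2 ^ Fintype.card V * B ^ Fintype.card P < n) :
    ∃ v : Fin (B ^ (∑ a, w a)) → ℝ × ℝ, Function.Injective v ∧
      (∀ t : Finset (Fin (B ^ (∑ a, w a))), t.card = 4 → ¬ IsClique pol v t) ∧
      (∀ t : Finset (Fin (B ^ (∑ a, w a))), t.card = n → ¬ IsIndep pol v t) := by
  classical
  obtain ⟨M, C, H⟩ := exists_scale S w hB
  obtain ⟨T, hT⟩ := exists_tset H (univ : Finset V)
  set L : Finset (ℝ ×ₗ ℝ) := T.map (toLex.toEmbedding) with hL
  have hLc : L.card = B ^ (∑ a, w a) := by rw [hL, card_map, hT.card]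
  set v : Fin (B ^ (∑ a, w a)) → ℝ × ℝ := fun i => ofLex (L.orderEmbOfFin hLc i) with hv
  have hvT : ∀ i, v i ∈ T := by
    intro i
    obtain ⟨y, hy, he⟩ := mem_map.1 (L.orderEmbOfFin_mem hLc i)
    have : v i = y := by
      rw [hv]
      simp only
      rw [← he]
      rfl
    rw [this]
    exact hy
  have hvi : Function.Injective v := by
    intro i j hij
    have : L.orderEmbOfFin hLc i = L.orderEmbOfFin hLc j := ofLex.injective hij
    exact (L.orderEmbOfFin hLc).injective this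
  have hvlt : ∀ i j, i < j → (v i).1 ≤ (v j).1 := by
    intro i j hij
    have h1 : L.orderEmbOfFin hLc i < L.orderEmbOfFin hLc j :=
      (L.orderEmbOfFin hLc).strictMono hij
    rw [Prod.Lex.lt_iff] at h1
    rcases h1 with h1 | h1
    · exact h1.le
    · exact h1.1.le
  have hty : ∀ i j, i < j → ∃ a, ty S M C a (v j - v i) := by
    intro i j hij
    obtain ⟨a, _, h⟩ := hT.typ (v i) (hvT i) (v j) (hvT j) (fun he => hij.ne (hvi he))
    refine ⟨a, ?_⟩
    rcases h with h | h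
    · exact h
    · have h1 := h.1
      have h2 := hvlt i j hij
      simp only [Prod.fst_sub] at h1
      linarith
  have hord : ∀ i j a, ty S M C a (v j - v i) → i < j := by
    intro i j a h
    by_contra hcon
    rcases eq_or_lt_of_le (not_lt.1 hcon) with he | hlt
    · have h1 := h.1
      rw [he, sub_self] at h1
      exact lt_irrefl _ h1
    · have h1 := h.1
      have h2 := hvlt j i hlt
      simp only [Prod.fst_sub] at h1
      linarith
  have hedge : ∀ i j k a b, ty S M C a (v j - v i) → ty S M C b (v k - v j) →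
      (0 ≤ polyVal pol (v i) (v j) (v k) ↔ S.Adj a b) := by
    intro i j k a b h1 h2
    rw [polyVal_pol]
    exact fval_nonneg_iff H h1 h2
  refine ⟨v, hvi, ?_, ?_⟩
  · intro t ht hcl
    set e := t.orderEmbOfFin ht with he
    have hm : ∀ x, e x ∈ t := fun x => t.orderEmbOfFin_mem ht x
    have h01 : e 0 < e 1 := e.strictMono (by decide)
    have h12 : e 1 < e 2 := e.strictMono (by decide)
    have h23 : e 2 < e 3 := e.strictMono (by decide)
    obtain ⟨i, hi⟩ := hty _ _ h01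
    obtain ⟨j, hj⟩ := hty _ _ h12
    obtain ⟨k, hk⟩ := hty _ _ h23
    obtain ⟨m, hm'⟩ := hty _ _ (h12.trans h23)
    have a1 := (hedge _ _ _ _ _ hi hj).1 (hcl _ (hm 0) _ (hm 1) _ (hm 2) h01 h12)
    have a2 := (hedge _ _ _ _ _ hi hm').1 (hcl _ (hm 0) _ (hm 1) _ (hm 3) h01 (h12.trans h23))
    have a3 := (hedge _ _ _ _ _ hj hk).1 (hcl _ (hm 1) _ (hm 2) _ (hm 3) h12 h23)
    have hmk : m = k := by
      apply ty_add H hj hk ?_ a3.1
      have : v (e 2) - v (e 1) + (v (e 3) - v (e 2)) = v (e 3) - v (e 1) := by abel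
      rw [this]
      exact hm'
    rw [hmk] at a2
    exact hTF i j k a1 a3 a2
  · intro t ht hind
    have hcard := hT.indep univ (Fintype.card P) (fun I _ hI => (hWT I hI).trans (card_le_univ _))
      (t.image v) (by
        intro z hz
        obtain ⟨i, _, rfl⟩ := mem_image.1 hz
        exact hvT i)
      (by
        intro z hz z' hz' hne
        obtain ⟨i, _, rfl⟩ := mem_image.1 hz
        obtain ⟨j, _, rfl⟩ := mem_image.1 hz'
        obtain ⟨a, ha, h⟩ := hT.typ (v i) (hvT i) (v j) (hvT j) hne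
        exact ⟨a, ha, h⟩)
      (by
        intro z1 h1 z2 h2 z3 h3 a b ha hb hadj
        obtain ⟨i, hi, rfl⟩ := mem_image.1 h1
        obtain ⟨j, hj, rfl⟩ := mem_image.1 h2
        obtain ⟨k, hk, rfl⟩ := mem_image.1 h3
        exact hind i hi j hj k hk (hord _ _ _ ha) (hord _ _ _ hb)
          ((hedge _ _ _ _ _ ha hb).2 hadj))
    rw [card_image_of_injective _ hvi, ht, card_univ] at hcard
    omega

/-- a configuration on `N` points is a configuration on fewer points -/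
theorem not_forces {N N' s n : ℕ} (hN : N' ≤ N) {f : MvPolynomial (Fin 6) ℝ}
    {v : Fin N → ℝ × ℝ} (hv : Function.Injective v)
    (h1 : ∀ t : Finset (Fin N), t.card = s → ¬ IsClique f v t)
    (h2 : ∀ t : Finset (Fin N), t.card = n → ¬ IsIndep f v t) : ¬ Forces f s n N' := by
  intro hF
  rcases hF (fun i => v (Fin.castLE hN i)) (hv.comp (Fin.castLE_injective hN)) with
    ⟨t, ht, hc⟩ | ⟨t, ht, hc⟩
  · refine h1 (t.map (Fin.castLEEmb hN)) (by rw [card_map, ht]) ?_
    intro i hi j hj k hk hij hjk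
    obtain ⟨i', hi', rfl⟩ := mem_map.1 hi
    obtain ⟨j', hj', rfl⟩ := mem_map.1 hj
    obtain ⟨k', hk', rfl⟩ := mem_map.1 hk
    exact hc i' hi' j' hj' k' hk' (by simpa using hij) (by simpa using hjk)
  · refine h2 (t.map (Fin.castLEEmb hN)) (by rw [card_map, ht]) ?_
    intro i hi j hj k hk hij hjk
    obtain ⟨i', hi', rfl⟩ := mem_map.1 hi
    obtain ⟨j', hj', rfl⟩ := mem_map.1 hj
    obtain ⟨k', hk', rfl⟩ := mem_map.1 hk
    exact hc i' hi' j' hj' k' hk' (by simpa using hij) (by simpa using hjk)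

theorem pow_le_semiRamsey (k : ℕ) : ∀ᶠ n : ℕ in atTop, n ^ k ≤ semiRamsey pol 4 n := by
  obtain ⟨V, P, _, _, S, w, hTF, _, hWT, htot, hP, _⟩ := exists_sys (2 * k)
  have hW : ∑ a, w a = Fintype.card P * (k + 1) := by
    have : 2 * ∑ a, w a = 2 * (Fintype.card P * (k + 1)) := by
      rw [htot]; ring
    omega
  set c : ℕ := 2 ^ Fintype.card V * 2 ^ Fintype.card P with hc
  have hc1 : 1 ≤ c := Nat.one_le_iff_ne_zero.2 (by positivity)
  filter_upwards [eventually_ge_atTop (c ^ (k + 1) + 2 ^ Fintype.card V + 1)] with n hn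
  have hn1 : c ^ (k + 1) ≤ n := le_trans (by rw [add_assoc]; exact Nat.le_add_right _ _) hn
  have hn2 : 2 ^ Fintype.card V < n :=
    lt_of_lt_of_le (Nat.lt_succ_of_le (Nat.le_add_left _ _)) hn
  -- the parameter `B`
  have hex : ∃ B', n ≤ 2 ^ Fintype.card V * B' ^ Fintype.card P := by
    refine ⟨n, ?_⟩
    calc n = 1 * n ^ 1 := by ring
      _ ≤ 2 ^ Fintype.card V * n ^ Fintype.card P :=
        Nat.mul_le_mul Nat.one_le_two_pow
          (Nat.pow_le_pow_right (Nat.pos_of_ne_zero (by rintro rfl; exact Nat.not_lt_zero _ hn2)) hP)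
  classical
  obtain ⟨B', hB', hmin⟩ : ∃ B', n ≤ 2 ^ Fintype.card V * B' ^ Fintype.card P ∧
      ∀ m < B', ¬ n ≤ 2 ^ Fintype.card V * m ^ Fintype.card P :=
    ⟨Nat.find hex, Nat.find_spec hex, fun m hm => Nat.find_min hex hm⟩
  have hB2 : 2 ≤ B' := by
    by_contra hlt
    have : B' ≤ 1 := by omega
    have h1 : B' ^ Fintype.card P ≤ 1 := Nat.pow_le_one_iff hP.ne' |>.2 this
    have h2 : 2 ^ Fintype.card V * B' ^ Fintype.card P ≤ 2 ^ Fintype.card V * 1 :=
      Nat.mul_le_mul_left _ h1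
    rw [mul_one] at h2
    exact absurd (hB'.trans h2) (not_le.2 hn2)
  obtain ⟨B, rfl⟩ : ∃ B, B' = B + 1 := ⟨B' - 1, by omega⟩
  have hB : 1 ≤ B := by omega
  have hlt : 2 ^ Fintype.card V * B ^ Fintype.card P < n := not_le.1 (hmin B (by omega))
  have hge : n ≤ c * B ^ Fintype.card P := by
    calc n ≤ 2 ^ Fintype.card V * (B + 1) ^ Fintype.card P := hB'
      _ ≤ 2 ^ Fintype.card V * (2 * B) ^ Fintype.card P := by
        gcongr
        omega
      _ = c * B ^ Fintype.card P := by rw [hc, mul_pow]; ring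
  have hN : n ^ k ≤ B ^ (∑ a, w a) := by
    rw [hW, pow_mul]
    have h1 : n ^ k * c ^ (k + 1) ≤ (B ^ Fintype.card P) ^ (k + 1) * c ^ (k + 1) := by
      calc n ^ k * c ^ (k + 1) ≤ n ^ k * n := Nat.mul_le_mul_left _ hn1
        _ = n ^ (k + 1) := (pow_succ n k).symm
        _ ≤ (c * B ^ Fintype.card P) ^ (k + 1) := Nat.pow_le_pow_left hge _
        _ = _ := by rw [mul_pow]; ring
    exact Nat.le_of_mul_le_mul_right h1 (by positivity)
  obtain ⟨v, hv, h4, hi⟩ := exists_config hTF hWT hB hlt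
  apply le_csInf (forces_exists pol 4 n)
  intro N' hN'
  by_contra hcon
  exact not_forces (by omega) hv h4 hi hN'

/-- **Main result (negative answer to Q1).**  There is a real polynomial `f` in six variables for
which `R_f(4, n)` is eventually at least `n ^ k`, for every `k`; in particular there is no constant
`C` with `R_f(4, n) ≤ C n ^ C` for all `n ≥ 1`.  The first clause says that the Ramsey numbers of
every polynomial exist, so that the infimum in their definition is a minimum. -/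
theorem result :
    (∀ (f : MvPolynomial (Fin 6) ℝ) (s n : ℕ), ∃ N, Forces f s n N) ∧
    ∃ f : MvPolynomial (Fin 6) ℝ,
      (∀ k : ℕ, ∀ᶠ n : ℕ in atTop, n ^ k ≤ semiRamsey f 4 n) ∧
      ¬ ∃ C : ℝ, ∀ n : ℕ, 1 ≤ n → (semiRamsey f 4 n : ℝ) ≤ C * (n : ℝ) ^ C := by
  refine ⟨forces_exists, pol, pow_le_semiRamsey, ?_⟩
  rintro ⟨C, hC⟩
  have h1 := pow_le_semiRamsey (⌈|C|⌉₊ + 1)
  obtain ⟨n, hn1, hn2, hn3⟩ := (h1.and ((eventually_gt_atTop ⌈|C|⌉₊).and
    (eventually_ge_atTop 1))).exists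
  have hn : (1:ℝ) ≤ n := by exact_mod_cast hn3
  have hCn : |C| < n := by
    have : (⌈|C|⌉₊ : ℝ) < n := by exact_mod_cast hn2
    exact (Nat.le_ceil _).trans_lt this
  have h2 := hC n hn3
  have h3 : ((n ^ (⌈|C|⌉₊ + 1) : ℕ) : ℝ) ≤ semiRamsey pol 4 n := by exact_mod_cast hn1
  have h4 : C * (n:ℝ) ^ C ≤ |C| * (n:ℝ) ^ (⌈|C|⌉₊ : ℝ) := by
    have e1 : (n:ℝ) ^ C ≤ (n:ℝ) ^ (⌈|C|⌉₊ : ℝ) :=
      Real.rpow_le_rpow_of_exponent_le hn ((le_abs_self C).trans (Nat.le_ceil _))
    have e2 : 0 ≤ (n:ℝ) ^ C := Real.rpow_nonneg (by linarith) _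
    calc C * (n:ℝ) ^ C ≤ |C| * (n:ℝ) ^ C := mul_le_mul_of_nonneg_right (le_abs_self C) e2
      _ ≤ _ := mul_le_mul_of_nonneg_left e1 (abs_nonneg C)
  have h5 : |C| * (n:ℝ) ^ (⌈|C|⌉₊ : ℝ) < ((n ^ (⌈|C|⌉₊ + 1) : ℕ) : ℝ) := by
    rw [Real.rpow_natCast]
    push_cast
    rw [pow_succ, mul_comm]
    exact mul_lt_mul_of_pos_left hCn (by positivity)
  linarith

end Pool.Agent.Results.MP_654b32_co.Superpolynomial
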